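import Mathlib

/-!
# Modular sonar sequences and quasi-periodic sequences: the window argument
-/

set_option autoImplicit false

namespace Pool.Agent.Sonar

open Finset

/-- the terms `f 1, …, f n` form an `m × n` modular sonar sequence: for every shift `h ≥ 1` the
differences `f (i + h) - f i`, `1 ≤ i ≤ n - h`, are pairwise distinct in `ℤ/m` -/
def IsModularSonar (m n : ℕ) (f : ℕ → ZMod m) : Prop :=
  ∀ h i j : ℕ, 1 ≤ h → 1 ≤ i → 1 ≤ j → i + h ≤ n → j + h ≤ n →
    f (i + h) - f i = f (j + h) - f j → i = j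

theorem sum_sq_fiber {ι κ : Type*} [DecidableEq κ] (T : Finset ι) (Y : Finset κ) (φ : ι → κ)
    (h : ∀ u ∈ T, φ u ∈ Y) :
    ∑ y ∈ Y, (#{u ∈ T | φ u = y}) ^ 2 = ∑ u ∈ T, #{v ∈ T | φ v = φ u} := by
  rw [← Finset.sum_fiberwise_of_maps_to h]
  refine Finset.sum_congr rfl fun y _ => ?_
  rw [Finset.sum_congr rfl (g := fun _ => #{v ∈ T | φ v = y})]
  · rw [Finset.sum_const, smul_eq_mul, sq]
  · intro u hu
    rw [Finset.mem_filter] at hu
    rw [hu.2]

/-- the fibres of `ℤ/m → ℤ/d` have `m / d` elements -/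
theorem card_fiber {m d : ℕ} [NeZero m] [NeZero d] (hd : d ∣ m) (b : ZMod d) :
    d * #{v : ZMod m | ZMod.castHom hd (ZMod d) v = b} = m := by
  have hsurj : Function.Surjective (ZMod.castHom hd (ZMod d)) := ZMod.ringHom_surjective _
  have key : ∀ b' : ZMod d, #{v : ZMod m | ZMod.castHom hd (ZMod d) v = b'} ≤
      #{v : ZMod m | ZMod.castHom hd (ZMod d) v = b} := by
    intro b'
    obtain ⟨w, hw⟩ := hsurj (b - b')
    refine Finset.card_le_card_of_injOn (fun v => v + w) ?_ ?_
    · intro v hv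
      simp only [Finset.coe_filter, Finset.mem_univ, true_and, Set.mem_ofPred_eq] at hv ⊢
      rw [map_add, hv, hw]
      ring
    · intro v _ v' _ hvv
      exact add_right_cancel hvv
  have key' : ∀ b' : ZMod d, #{v : ZMod m | ZMod.castHom hd (ZMod d) v = b} ≤
      #{v : ZMod m | ZMod.castHom hd (ZMod d) v = b'} := by
    intro b'
    obtain ⟨w, hw⟩ := hsurj (b' - b)
    refine Finset.card_le_card_of_injOn (fun v => v + w) ?_ ?_
    · intro v hv
      simp only [Finset.coe_filter, Finset.mem_univ, true_and, Set.mem_ofPred_eq] at hv ⊢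
      rw [map_add, hv, hw]
      ring
    · intro v _ v' _ hvv
      exact add_right_cancel hvv
  have h1 : #(Finset.univ : Finset (ZMod m)) =
      ∑ b' : ZMod d, #{v : ZMod m | ZMod.castHom hd (ZMod d) v = b'} :=
    Finset.card_eq_sum_card_fiberwise (fun v _ => Finset.mem_univ _)
  rw [Finset.card_univ, ZMod.card] at h1
  rw [Finset.sum_congr rfl fun b' _ => le_antisymm (key b') (key' b'),
    Finset.sum_const, Finset.card_univ, ZMod.card, smul_eq_mul] at h1
  exact h1.symm

variable {m n d N : ℕ} {f : ℕ → ZMod m} {g : ℕ → ZMod d} {c : ZMod d}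

theorem quasi (hg : ∀ x, g (x + N) = g x + c) (x k : ℕ) : g (x + k * N) = g x + k * c := by
  induction k with
  | zero => simp
  | succ k ih =>
    rw [show x + (k + 1) * N = x + k * N + N by ring, hg, ih]
    push_cast
    ring

/-- coincidences at distance `k N` -/
theorem card_coinc [NeZero m] [NeZero d] (hd : d ∣ m) (hN : 1 ≤ N) (hf : IsModularSonar m n f)
    (hg : ∀ x, g (x + N) = g x + c) (k : ℕ) (hk : 1 ≤ k) :
    d * #{i ∈ range n | i + k * N < n ∧
      ZMod.castHom hd (ZMod d) (f (i + k * N + 1)) - g (i + k * N + 1) =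
        ZMod.castHom hd (ZMod d) (f (i + 1)) - g (i + 1)} ≤ m := by
  conv_rhs => rw [← card_fiber hd ((k : ZMod d) * c)]
  refine Nat.mul_le_mul_left d ?_
  refine Finset.card_le_card_of_injOn (fun i => f (i + k * N + 1) - f (i + 1)) ?_ ?_
  · intro i hi
    simp only [Finset.coe_filter, Finset.mem_range, Set.mem_ofPred_eq] at hi
    simp only [Finset.coe_filter, Finset.mem_univ, true_and, Set.mem_ofPred_eq]
    have h1 := hi.2.2
    have h2 := quasi hg (i + 1) k
    rw [show i + 1 + k * N = i + k * N + 1 by ring] at h2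
    rw [map_sub]
    rw [h2] at h1
    linear_combination h1
  · intro i hi j hj hij
    simp only [Finset.coe_filter, Finset.mem_range, Set.mem_ofPred_eq] at hi hj
    have hkN : 1 ≤ k * N := Nat.mul_pos hk hN
    have h3 := hf (k * N) (i + 1) (j + 1) hkN (by omega) (by omega) (by omega) (by omega)
      (by
        have := hij
        simp only at this
        rw [show i + 1 + k * N = i + k * N + 1 by ring, show j + 1 + k * N = j + k * N + 1 by ring]
        exact this)
    omega

/-- pairs of window positions in one class -/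
theorem card_pairs [NeZero m] [NeZero d] (hd : d ∣ m) (hN : 1 ≤ N) (hf : IsModularSonar m n f)
    (hg : ∀ x, g (x + N) = g x + c) (k l : ℕ) (hkl : k ≠ l) :
    d * #{p ∈ range n ×ˢ range n | p.2 + l * N = p.1 + k * N ∧
      ZMod.castHom hd (ZMod d) (f (p.2 + 1)) - g (p.2 + 1) =
        ZMod.castHom hd (ZMod d) (f (p.1 + 1)) - g (p.1 + 1)} ≤ m := by
  rcases lt_or_gt_of_ne hkl with h | h
  · -- `p.1 = p.2 + (l - k) N`
    have h0 : l * N = k * N + (l - k) * N := by
      rw [← Nat.add_mul]
      congr 1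
      omega
    refine le_trans (Nat.mul_le_mul_left d ?_) (card_coinc hd hN hf hg (l - k) (by omega))
    refine Finset.card_le_card_of_injOn (fun p => p.2) ?_ ?_
    · intro p hp
      simp only [Finset.coe_filter, Finset.mem_product, Finset.mem_range, Set.mem_ofPred_eq] at hp ⊢
      have h1 : p.2 + (l - k) * N = p.1 := by omega
      exact ⟨hp.1.2, by omega, by rw [h1]; exact hp.2.2.symm⟩
    · intro p hp q hq hpq
      simp only [Finset.coe_filter, Finset.mem_product, Finset.mem_range, Set.mem_ofPred_eq] at hp hq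
      simp only at hpq
      exact Prod.ext (by omega) hpq
  · have h0 : k * N = l * N + (k - l) * N := by
      rw [← Nat.add_mul]
      congr 1
      omega
    refine le_trans (Nat.mul_le_mul_left d ?_) (card_coinc hd hN hf hg (k - l) (by omega))
    refine Finset.card_le_card_of_injOn (fun p => p.1) ?_ ?_
    · intro p hp
      simp only [Finset.coe_filter, Finset.mem_product, Finset.mem_range, Set.mem_ofPred_eq] at hp ⊢
      have h1 : p.1 + (k - l) * N = p.2 := by omega
      exact ⟨hp.1.1, by omega, by rw [h1]; exact hp.2.2⟩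
    · intro p hp q hq hpq
      simp only [Finset.coe_filter, Finset.mem_product, Finset.mem_range, Set.mem_ofPred_eq] at hp hq
      simp only at hpq
      exact Prod.ext hpq (by omega)

theorem card_pairs_self (G : ℕ → ZMod d) (k : ℕ) :
    #{p ∈ range n ×ˢ range n | p.2 + k * N = p.1 + k * N ∧ G (p.2 + 1) = G (p.1 + 1)} ≤ n := by
  refine le_trans (Finset.card_le_card_of_injOn (fun p => p.1) (t := range n) ?_ ?_)
    (Finset.card_range n).le
  · intro p hp
    simp only [Finset.coe_filter, Finset.mem_product, Finset.mem_range, Set.mem_ofPred_eq] at hp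
    simpa using hp.1.1
  · intro p hp q hq hpq
    simp only [Finset.coe_filter, Finset.mem_product, Finset.mem_range, Set.mem_ofPred_eq] at hp hq
    simp only at hpq
    exact Prod.ext hpq (by omega)

/-- number of positions in the class `a` -/
def cls (n : ℕ) (G : ℕ → ZMod d) (a : ZMod d) : ℕ := #{i ∈ range n | G (i + 1) = a}

/-- the window inequality -/
theorem window_ineq [NeZero m] [NeZero d] (hd : d ∣ m) (hN : 1 ≤ N) (hf : IsModularSonar m n f)
    (hg : ∀ x, g (x + N) = g x + c) (t : ℕ) (ht : 1 ≤ t) :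
    d * (t ^ 2 * ∑ a : ZMod d,
      (cls n (fun i => ZMod.castHom hd (ZMod d) (f i) - g i) a) ^ 2) ≤
        (n + (t - 1) * N) * (d * (t * n) + t * (t - 1) * m) := by
  set G : ℕ → ZMod d := fun i => ZMod.castHom hd (ZMod d) (f i) - g i with hG
  set T : Finset (ℕ × ℕ) := range n ×ˢ range t with hT
  set Y : Finset (ZMod d × ℕ) := Finset.univ ×ˢ range (n + (t - 1) * N) with hY
  let φ : ℕ × ℕ → ZMod d × ℕ := fun u => (G (u.1 + 1), u.1 + u.2 * N)
  have hφ : ∀ u ∈ T, φ u ∈ Y := by
    intro u hu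
    rw [hT, Finset.mem_product, Finset.mem_range, Finset.mem_range] at hu
    rw [hY, Finset.mem_product, Finset.mem_range]
    refine ⟨Finset.mem_univ _, ?_⟩
    have h1 : u.2 * N ≤ (t - 1) * N := Nat.mul_le_mul_right N (by omega)
    change u.1 + u.2 * N < n + (t - 1) * N
    omega
  -- the number of pairs
  have hpairs : d * ∑ u ∈ T, #{v ∈ T | φ v = φ u} ≤ d * (t * n) + t * (t - 1) * m := by
    have e1 : ∑ u ∈ T, #{v ∈ T | φ v = φ u} = ∑ k ∈ range t, ∑ l ∈ range t,
        #{p ∈ range n ×ˢ range n | p.2 + l * N = p.1 + k * N ∧ G (p.2 + 1) = G (p.1 + 1)} := by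
      rw [hT, Finset.sum_product_right]
      refine Finset.sum_congr rfl fun k _ => ?_
      have e2 : ∀ i ∈ range n, #{v ∈ range n ×ˢ range t | φ v = φ (i, k)} =
          ∑ l ∈ range t, #{j ∈ range n | j + l * N = i + k * N ∧ G (j + 1) = G (i + 1)} := by
        intro i _
        rw [Finset.card_filter, Finset.sum_product_right]
        refine Finset.sum_congr rfl fun l _ => ?_
        rw [Finset.card_filter]
        refine Finset.sum_congr rfl fun j _ => ?_
        refine if_congr ?_ rfl rfl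
        simp only [φ, Prod.mk.injEq]
        exact and_comm
      rw [Finset.sum_congr rfl e2, Finset.sum_comm]
      refine Finset.sum_congr rfl fun l _ => ?_
      rw [Finset.card_filter, Finset.sum_product]
      refine Finset.sum_congr rfl fun i _ => ?_
      rw [Finset.card_filter]
    have e3 : ∀ k ∈ range t, d * ∑ l ∈ range t,
        #{p ∈ range n ×ˢ range n | p.2 + l * N = p.1 + k * N ∧ G (p.2 + 1) = G (p.1 + 1)} ≤
          d * n + (t - 1) * m := by
      intro k hk
      rw [← Finset.add_sum_erase _ _ hk, Nat.mul_add]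
      refine Nat.add_le_add (Nat.mul_le_mul_left d (card_pairs_self G k)) ?_
      rw [Finset.mul_sum]
      refine le_trans (Finset.sum_le_card_nsmul _ _ m ?_) ?_
      · intro l hl
        exact card_pairs hd hN hf hg k l (Finset.ne_of_mem_erase hl).symm
      · rw [Finset.card_erase_of_mem hk, Finset.card_range, smul_eq_mul]
    rw [e1, Finset.mul_sum]
    refine le_trans (Finset.sum_le_card_nsmul _ _ _ e3) (le_of_eq ?_)
    rw [Finset.card_range, smul_eq_mul]
    ring
  -- Cauchy and Schwarz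
  have hsum : ∀ a : ZMod d, ∑ x ∈ range (n + (t - 1) * N), #{u ∈ T | φ u = (a, x)} =
      t * cls n G a := by
    intro a
    have e1 : ∑ x ∈ range (n + (t - 1) * N), #{u ∈ T | φ u = (a, x)} =
        #{u ∈ T | G (u.1 + 1) = a} := by
      have e2 := Finset.card_eq_sum_card_fiberwise (f := fun u : ℕ × ℕ => u.1 + u.2 * N)
        (s := {u ∈ T | G (u.1 + 1) = a}) (t := range (n + (t - 1) * N)) (by
          intro u hu
          simp only [Finset.coe_filter, Set.mem_ofPred_eq] at hu
          have := hφ u hu.1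
          rw [hY, Finset.mem_product] at this
          exact this.2)
      rw [e2]
      refine Finset.sum_congr rfl fun x _ => ?_
      congr 1
      ext u
      simp only [Finset.mem_filter, φ, Prod.mk.injEq]
      tauto
    rw [e1, cls, Finset.card_filter, Finset.card_filter, hT, Finset.sum_product_right]
    change ∑ _k ∈ range t, (∑ i ∈ range n, if G (i + 1) = a then 1 else 0) = _
    rw [Finset.sum_const, Finset.card_range, smul_eq_mul]
  have hCS : ∀ a : ZMod d, (t * cls n G a) ^ 2 ≤
      (n + (t - 1) * N) * ∑ x ∈ range (n + (t - 1) * N), #{u ∈ T | φ u = (a, x)} ^ 2 := by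
    intro a
    rw [← hsum a]
    have := sq_sum_le_card_mul_sum_sq (s := range (n + (t - 1) * N))
      (f := fun x => #{u ∈ T | φ u = (a, x)})
    rwa [Finset.card_range] at this
  calc d * (t ^ 2 * ∑ a : ZMod d, (cls n G a) ^ 2)
      = d * ∑ a : ZMod d, (t * cls n G a) ^ 2 := by
        rw [Finset.mul_sum]
        refine congrArg _ (Finset.sum_congr rfl fun a _ => ?_)
        ring
    _ ≤ d * ∑ a : ZMod d, (n + (t - 1) * N) *
          ∑ x ∈ range (n + (t - 1) * N), #{u ∈ T | φ u = (a, x)} ^ 2 :=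
        Nat.mul_le_mul_left d (Finset.sum_le_sum fun a _ => hCS a)
    _ = (n + (t - 1) * N) * (d * ∑ y ∈ Y, (#{u ∈ T | φ u = y}) ^ 2) := by
        rw [← Finset.mul_sum, hY, Finset.sum_product]
        ring
    _ = (n + (t - 1) * N) * (d * ∑ u ∈ T, #{v ∈ T | φ v = φ u}) := by
        rw [sum_sq_fiber T Y φ hφ]
    _ ≤ _ := Nat.mul_le_mul_left _ hpairs

theorem sum_cls [NeZero d] (G : ℕ → ZMod d) : ∑ a : ZMod d, cls n G a = n := by
  have h := Finset.card_eq_sum_card_fiberwise (f := fun i : ℕ => G (i + 1)) (s := range n)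
    (t := (Finset.univ : Finset (ZMod d))) (fun i _ => Finset.mem_univ _)
  rw [Finset.card_range] at h
  exact h.symm

/-- the variance inequality -/
theorem variance [NeZero m] [NeZero d] (hd : d ∣ m) (hN : 1 ≤ N) (hf : IsModularSonar m n f)
    (hg : ∀ x, g (x + N) = g x + c) :
    ∑ a : ZMod d, ((cls n (fun i => ZMod.castHom hd (ZMod d) (f i) - g i) a : ℝ) - n / d) ^ 2 ≤
      2 * n * √((m + 1) * N / d) + n * N + n * (m + 1 - n) / d := by
  set G : ℕ → ZMod d := fun i => ZMod.castHom hd (ZMod d) (f i) - g i with hG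
  have hd0 : (0 : ℝ) < d := by exact_mod_cast Nat.pos_of_ne_zero (NeZero.ne d)
  have hN0 : (1 : ℝ) ≤ N := by exact_mod_cast hN
  have hm0 : (0 : ℝ) ≤ m := Nat.cast_nonneg m
  have hs1 : ∑ a : ZMod d, (cls n G a : ℝ) = n := by exact_mod_cast sum_cls G
  have hexp : ∑ a : ZMod d, ((cls n G a : ℝ) - n / d) ^ 2 =
      ∑ a : ZMod d, (cls n G a : ℝ) ^ 2 - (n : ℝ) ^ 2 / d := by
    have e1 : ∀ a : ZMod d, ((cls n G a : ℝ) - n / d) ^ 2 =
        (cls n G a : ℝ) ^ 2 - 2 * (n / d) * cls n G a + (n / d) ^ 2 := fun a => by ring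
    rw [Finset.sum_congr rfl fun a _ => e1 a, Finset.sum_add_distrib, Finset.sum_sub_distrib,
      ← Finset.mul_sum, hs1, Finset.sum_const, Finset.card_univ, ZMod.card, nsmul_eq_mul]
    field_simp
    ring
  rw [hexp]
  rcases Nat.eq_zero_or_pos n with hn | hn
  · subst hn
    simp [cls]
  have hn0 : (1 : ℝ) ≤ n := by exact_mod_cast hn
  set s : ℝ := √((m + 1) * N / d) with hs
  have hs2 : s ^ 2 = (m + 1) * N / d := Real.sq_sqrt (by positivity)
  have hs0 : 0 < s := Real.sqrt_pos.2 (by positivity)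
  set t : ℕ := ⌈(n : ℝ) / s⌉₊ with ht
  have ht1 : 1 ≤ t := Nat.ceil_pos.2 (by positivity)
  have ht1' : (1 : ℝ) ≤ t := by exact_mod_cast ht1
  have ht2 : (n : ℝ) ≤ t * s := by
    have := Nat.le_ceil ((n : ℝ) / s)
    rwa [div_le_iff₀ hs0] at this
  have ht3 : ((t : ℝ) - 1) * s ≤ n := by
    have h1 := Nat.ceil_lt_add_one (show (0 : ℝ) ≤ (n : ℝ) / s by positivity)
    have h2 : (t : ℝ) - 1 ≤ n / s := by linarith
    rwa [le_div_iff₀ hs0] at h2
  have hw : (d : ℝ) * ((t : ℝ) ^ 2 * ∑ a : ZMod d, (cls n G a : ℝ) ^ 2) ≤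
      (n + (t - 1) * N) * (d * (t * n) + t * (t - 1) * m) := by
    have h := window_ineq hd hN hf hg t ht1
    have h' : ((d * (t ^ 2 * ∑ a : ZMod d, (cls n G a) ^ 2) : ℕ) : ℝ) ≤
        (((n + (t - 1) * N) * (d * (t * n) + t * (t - 1) * m) : ℕ) : ℝ) := by exact_mod_cast h
    push_cast [Nat.cast_sub ht1] at h'
    exact h'
  have ht0 : (0 : ℝ) < t := by linarith
  have hV : ∑ a : ZMod d, (cls n G a : ℝ) ^ 2 ≤
      (n + (t - 1) * N) * (n / t + (t - 1) / t * (m / d)) := by
    have h1 : (n + (t - 1) * N) * (n / t + (t - 1) / t * (m / d)) =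
        ((n : ℝ) + (t - 1) * N) * (d * (t * n) + t * (t - 1) * m) / (d * t ^ 2) := by
      field_simp
    rw [h1, le_div_iff₀ (by positivity)]
    linarith
  have hq : ((t : ℝ) - 1) / t ≤ 1 := by
    rw [div_le_one ht0]
    linarith
  have hq0 : 0 ≤ ((t : ℝ) - 1) / t := div_nonneg (by linarith) ht0.le
  have b1 : (n : ℝ) * (n / t) ≤ n * s := by
    refine mul_le_mul_of_nonneg_left ?_ (by positivity)
    rw [div_le_iff₀ ht0]
    linarith
  have b2 : (n : ℝ) * ((t - 1) / t * (m / d)) ≤ n * ((m + 1) / d) := by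
    refine mul_le_mul_of_nonneg_left ?_ (by positivity)
    calc ((t : ℝ) - 1) / t * (m / d) ≤ 1 * (m / d) :=
          mul_le_mul_of_nonneg_right hq (by positivity)
      _ ≤ (m + 1) / d := by
          rw [one_mul]
          exact div_le_div_of_nonneg_right (by linarith) hd0.le
  have b3 : ((t : ℝ) - 1) * N * (n / t) ≤ n * N := by
    calc ((t : ℝ) - 1) * N * (n / t) = ((t - 1) / t) * (n * N) := by ring
      _ ≤ 1 * (n * N) := mul_le_mul_of_nonneg_right hq (by positivity)
      _ = n * N := one_mul _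
  have b4 : ((t : ℝ) - 1) * N * ((t - 1) / t * (m / d)) ≤ n * s := by
    calc ((t : ℝ) - 1) * N * ((t - 1) / t * (m / d)) =
          ((t - 1) / t) * (((t : ℝ) - 1) * (N * m / d)) := by ring
      _ ≤ 1 * (((t : ℝ) - 1) * (N * m / d)) :=
          mul_le_mul_of_nonneg_right hq (mul_nonneg (by linarith) (by positivity))
      _ ≤ ((t : ℝ) - 1) * s ^ 2 := by
          rw [one_mul, hs2]
          refine mul_le_mul_of_nonneg_left ?_ (by linarith)
          refine div_le_div_of_nonneg_right ?_ hd0.le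
          nlinarith
      _ = (((t : ℝ) - 1) * s) * s := by ring
      _ ≤ n * s := mul_le_mul_of_nonneg_right ht3 hs0.le
  have hsum : ((n : ℝ) + (t - 1) * N) * (n / t + (t - 1) / t * (m / d)) =
      n * (n / t) + n * ((t - 1) / t * (m / d)) + ((t : ℝ) - 1) * N * (n / t) +
        ((t : ℝ) - 1) * N * ((t - 1) / t * (m / d)) := by ring
  have hfin : (n : ℝ) * ((m + 1) / d) - (n : ℝ) ^ 2 / d = n * (m + 1 - n) / d := by ring
  rw [hsum] at hV
  linarith

end Pool.Agent.Sonar
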